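import Pool.Agent.U881.HB.Pet2
import Pool.Agent.W315.MD.Final

/-!
# Disjoint perfect matchings in r-graphs without linked pentagons

* `MGraph r ends`: `r`-graphs, that is, loopless `r`-regular multigraphs on `Fin n` (edges `Fin m`) with
  at least `r` edges leaving every odd vertex set.
* `Minor H G`: `H` is a minor of `G`; `pent τ`: two disjoint pentagons `a₀ … a₄`, `b₀ … b₄` and the edges
  `aₖ b_{τ k}`, `k ≤ 3`, where `τ` is a permutation of `{0, 1, 2, 3}`; `PetMinor`: Petersen minor.
* `Sum3 K` (sums of order at most three), `Piece`: see `SumsOfOrderThree` of `MP_2d6e82_co`; `Piece5`: no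
  linked pentagons, or four hubs, or `Piece`.
-/

set_option autoImplicit false

namespace Pool.Agent.Results.MP_6b611a_co.LinkedPentagons

open Finset H76FC H76TX H76TY H76TW Pool.Agent.W315.LB Pool.Agent.U881.HB

/-- Let `G` be an `r`-graph such that no graph `pent τ` is a minor of `G`, or which has no Petersen minor
and is a sum of order at most three of graphs with `Piece5`.  Then `G` has `r` pairwise disjoint perfect
matchings; in particular two if `r ≥ 2`. -/
theorem result (r n m : ℕ) (ends : Fin m → Sym2 (Fin n)) (hG : MGraph r ends)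
    (hT : (∀ τ, ¬ Minor (pent τ) (SimpleGraph.fromEdgeSet (Set.range ends))) ∨
      (¬ PetMinor (SimpleGraph.fromEdgeSet (Set.range ends)) ∧
        Sum3 Piece5 (Fin n) (SimpleGraph.fromEdgeSet (Set.range ends)))) :
    ∃ M : Fin r → Set (Fin m), (∀ i v, ∃! e, e ∈ M i ∧ v ∈ ends e) ∧
      ∀ i j, i ≠ j → Disjoint (M i) (M j) := by
  have hc : MCover 1 r ends := by
    obtain ⟨hp, _⟩ := toR r n m ends hG
    rw [coverIff 1 r n m ends hG]
    have key : ¬ PetMinor (SimpleGraph.fromEdgeSet (Set.range ends)) ∧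
        Sum3 Piece5 (Fin n) (SimpleGraph.fromEdgeSet (Set.range ends)) := by
      rcases hT with hT | hT
      · refine ⟨fun h => ?_, Sum3.base _ _ (Or.inl hT)⟩
        obtain ⟨τ, hτ⟩ := pent_of_pet h
        exact hT τ hτ
      · exact hT
    exact cover_sum4 _ key.1 (sum_mono piece5_4 key.2) _ _ rfl r _ hp gr_minor
  obtain ⟨M, hM, h1⟩ := hc
  refine ⟨fun i => M (Fin.cast (one_mul r).symm i), fun i v => hM _ v, ?_⟩
  intro i j hij
  rw [Set.disjoint_left]
  intro e he he'
  have h2 := h1 e
  rw [Set.ncard_eq_one] at h2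
  obtain ⟨k, hk⟩ := h2
  have h3 : Fin.cast (one_mul r).symm i = k := (Set.ext_iff.1 hk _).1 he
  have h4 : Fin.cast (one_mul r).symm j = k := (Set.ext_iff.1 hk _).1 he'
  exact hij (Fin.cast_injective _ (h3.trans h4.symm))

end Pool.Agent.Results.MP_6b611a_co.LinkedPentagons
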